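import Pool.Agent.Lib.MP_90dd8d_pr.Params

/-!
# The infiltration game for small capture probability

For `w = 1` and every `n ≥ 2`, and for every fast searcher, `(n - 1 - w) ^ 2 ≤ n - 2`, explicit
strategies show that the value of the game is `1 - C (1 - lam) + O((1 - lam) ^ 2)`, with an
explicit constant `C`.
-/

set_option autoImplicit false

open MeasureTheory Filter

namespace Pool.Agent.Results.MP_90dd8d_pr.FirstOrder

open Pool.Agent.MP_90dd8d_pr

/-- If `w = 1` or `(n - 1 - w) ^ 2 ≤ n - 2`, the infiltrator, using `infLaw n (infCdf n w)`, wins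
with probability at least `lam ^ coeff n w`, and the searcher, using
`searchLaw n w _ _ (searchCdf n w)`, holds him down to
`1 - coeff n w (1 - lam) + K (1 - lam) ^ 2`, for all `0 < lam < 1`, where `K` depends only on `n`
and `w`. -/
theorem result (n w : ℕ) (hn : 2 ≤ n) (hw : 1 ≤ w) (h : w = 1 ∨ (n - 1 - w) ^ 2 ≤ n - 2) :
    IsProbabilityMeasure (infLaw n (infCdf n w)) ∧
    IsProbabilityMeasure (searchLaw n w (by omega) hw (searchCdf n w)) ∧
    (∀ lam : ℝ, 0 < lam → lam < 1 → ∀ ν : Measure (SearchPath n w), IsProbabilityMeasure ν →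
      lam ^ coeff n w ≤ winProb lam (infLaw n (infCdf n w)) ν) ∧
    ∃ K : ℝ, ∀ lam : ℝ, 0 < lam → lam < 1 → ∀ μ : Measure (InfPath n), IsProbabilityMeasure μ →
      winProb lam μ (searchLaw n w (by omega) hw (searchCdf n w))
        ≤ 1 - coeff n w * (1 - lam) + K * (1 - lam) ^ 2 := by
  by_cases hf : (n - 1 - w) ^ 2 ≤ n - 2
  · -- the fast case
    have hp := fastPar hn hw hf
    obtain ⟨hb0, hb⟩ := fastRoot_spec (m := n - 1 - w) hn
    have hI : infCdf n w = fastI n (n - 1 - w) (fastRoot n (n - 1 - w)) := if_pos hf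
    have hS : searchCdf n w = _ := if_pos hf
    have hC : coeff n w = fastC n (fastRoot n (n - 1 - w)) := by
      unfold coeff fastC
      rw [if_pos hf]
      split_ifs with h2
      · subst h2
        have e : 2 - 1 - w = 0 := by omega
        rw [e]
        unfold fastRoot
        norm_num
      · rw [harmonic_eq (n - 2) (by omega)]
    set m := n - 1 - w with hm
    set b := fastRoot n m with hbdef
    set c := b / (1 + (m : ℝ) * b) with hc
    set s := (m : ℝ) * c with hs
    have cI := isCdf_fastI hn hp.hm hb0.le hb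
    have cS := isCdf_fastS hp
    rw [hI, hS, infLaw_eq cI, searchLaw_eq cS, hC]
    refine ⟨Measure.isProbabilityMeasure_map (measurable_qInf cI n).aemeasurable,
      Measure.isProbabilityMeasure_map (measurable_qSearch cS n _).aemeasurable, ?_, ?_⟩
    · intro lam hl0 hl1 ν hν
      refine lower_of_cdf cI (fastI_nonneg hn hb0.le hb) (fastI_le_one hn hp.hm hb0.le hb)
        fastI_zero ?_ (by omega) (fun y T => sum_fastI_le hn hp.hm ?_ hb0.le hb y T) hl0 hl1 ν
      · have hb1 := fast_b_le_one hn hb0.le hb
        have h1 : Tendsto (fun e : ℕ => (1 - b) ^ e) atTop (nhds 0) :=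
          tendsto_pow_atTop_nhds_zero_of_lt_one (by linarith) (by linarith)
        rw [← tendsto_add_atTop_iff_nat (n - 1)]
        refine h1.congr (fun t => ?_)
        unfold fastI
        have e1 : t + (n - 1) - (n - 2) - (n + 1 - n) = t := by omega
        have e2 : min n (n - 1) = n - 1 := by omega
        rw [if_neg (by omega), e1, e2, fastG_last hn hp.hm hb, mul_one]
      · omega
    · obtain ⟨K, hK⟩ := exists_bound hp.s0 hp.hs1 (n - 2)
      refine ⟨K / 2 + fastC n b ^ 2, fun lam hl0 hl1 μ hμ => ?_⟩
      refine upper_of_cdf cS (fastS_nonneg hp) (fastS_le_one hp) fastS_zero hn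
        (fun x T hT hlt => le_sum_smass_fast hp x T hT hlt) (fun T => ?_) hl0 hl1 μ
      refine le_trans ?_ (hK T)
      gcongr with t ht
      unfold fastS
      by_cases h1 : t < n - 2
      · have e : t - (n - 2) = 0 := by omega
        rw [if_pos h1, e, pow_zero]
        exact min_le_left _ _
      · rw [if_neg h1, if_neg (by omega), if_pos rfl]
  · -- the slow case
    have hw1 : w = 1 := by
      rcases h with h | h
      · exact h
      · exact absurd h hf
    subst hw1
    set k := (n + 1) / 3 with hk
    have hk1 : 1 ≤ k := by omega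
    have hkn : k + 1 ≤ n := by omega
    have hkn3 : 3 * k ≤ n + 1 := by omega
    have hkn4 : n ≤ 3 * k + 1 := by omega
    obtain ⟨hz0, hz, hzk⟩ := slowRoot_spec hk1 hkn
    have hI : infCdf n 1 = thr k (slowRoot n k / (1 + slowRoot n k)) := if_neg hf
    have hS : searchCdf n 1 = thr k (1 - slowRoot n k / ((k : ℝ) * ((n : ℝ) - k))) := if_neg hf
    have hC : coeff n 1 = early k 0 + slowRoot n k / k := by
      unfold coeff
      rw [if_neg hf, ← hk, harmonic_eq k hk1]
      ring
    set z := slowRoot n k with hzdef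
    have hk' : (1 : ℝ) ≤ k := by exact_mod_cast hk1
    have hkn' : (k : ℝ) + 1 ≤ n := by exact_mod_cast hkn
    have hkn3' : 3 * (k : ℝ) ≤ n + 1 := by exact_mod_cast hkn3
    have hkn4' : (n : ℝ) ≤ 3 * k + 1 := by exact_mod_cast hkn4
    set M := (n : ℝ) - k with hM
    have hM0 : 0 < M := by linarith
    have hkM : 0 < (k : ℝ) * M := mul_pos (by linarith) hM0
    set τ := z / ((k : ℝ) * M) with hτ
    have hτ0 : 0 < τ := div_pos hz0 hkM
    have hzM : z ≤ M := by
      by_contra hcon
      push Not at hcon
      have h1 : 0 < (z - M) * (z + M - k + 1) := mul_pos (by linarith) (by nlinarith)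
      have h2 : 0 ≤ M * (M - 2 * k + 1) := mul_nonneg hM0.le (by linarith)
      nlinarith
    have hz2k : z ≤ 2 * k := by
      by_contra hcon
      push Not at hcon
      have h1 : 0 < (z - 2 * k) * (z + k + 1) := mul_pos (by linarith) (by linarith)
      have h2 : 0 ≤ (k : ℝ) * (2 * k + 2 - M) := mul_nonneg (by linarith) (by linarith)
      nlinarith
    have hkτ : (k : ℝ) * τ ≤ 1 := by
      rw [hτ, ← mul_div_assoc, div_le_one hkM]
      nlinarith
    have hMτ : M * τ = z / k := by
      rw [hτ]; field_simp
    have hr0 : 0 ≤ z / (1 + z) := by positivity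
    have hr1 : z / (1 + z) < 1 := by
      rw [div_lt_one (by linarith)]; linarith
    have hr : ((k : ℝ) - 1) * (1 - z / (1 + z)) ≤ z / (1 + z) := by
      have e : 1 - z / (1 + z) = 1 / (1 + z) := by field_simp; ring
      rw [e, mul_one_div]
      exact div_le_div_of_nonneg_right hzk (by linarith)
    have hrz : z / (1 + z) * (1 + z) = z := by field_simp
    have hzkM : z / k = ((n : ℝ) - k) * (1 - z / (1 + z)) + z / (1 + z) := by
      rw [← hM]
      field_simp
      nlinarith
    have hτ1 : τ ≤ 1 := by nlinarith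
    have cI : IsCdf 1 (thr k (z / (1 + z))) := isCdf_thr hk1 hr0 hr1.le hr
    have cS : IsCdf 1 (thr k (1 - τ)) := by
      refine isCdf_thr hk1 (by linarith) (by linarith) ?_
      have e : 1 - (1 - τ) = τ := by ring
      rw [e]
      linarith
    rw [hI, hS, infLaw_eq cI, searchLaw_eq cS, hC]
    refine ⟨Measure.isProbabilityMeasure_map (measurable_qInf cI n).aemeasurable,
      Measure.isProbabilityMeasure_map (measurable_qSearch cS n _).aemeasurable, ?_, ?_⟩
    · intro lam hl0 hl1 ν hν
      refine lower_of_cdf cI (thr_nonneg hr0) (thr_le_one hr0 hr1.le) (thr_zero hk1) ?_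
        (by omega) (fun y T => sum_mass_le (by omega) hk1 hr0 hr1.le hrz hz0.le hzkM y T) hl0 hl1 ν
      have h1 : Tendsto (fun e : ℕ => (z / (1 + z)) ^ e) atTop (nhds 0) :=
        tendsto_pow_atTop_nhds_zero_of_lt_one hr0 hr1
      rw [← tendsto_add_atTop_iff_nat (n - 1)]
      refine h1.congr (fun t => ?_)
      rw [thr_of_le (by omega)]
      congr 1
      omega
    · obtain ⟨K, hK⟩ := exists_bound (show 0 ≤ 1 - τ by linarith) (show 1 - τ < 1 by linarith)
        (n - 2)
      refine ⟨K / 2 + (early k 0 + z / k) ^ 2, fun lam hl0 hl1 μ hμ => ?_⟩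
      refine upper_of_cdf cS (thr_nonneg (by linarith)) (thr_le_one (by linarith) (by linarith))
        (thr_zero hk1) hn (fun x T hT hlt => ?_) (fun T => ?_) hl0 hl1 μ
      · rw [← hMτ]
        refine le_sum_smass hk1 hkn (by linarith) hτ0.le rfl ?_ ?_ x T hT hlt
        · rw [hτ]
          rw [← hM]
          field_simp
          nlinarith
        · rw [← hM, hMτ, div_le_iff₀ (by linarith)]
          linarith
      · refine le_trans ?_ (hK T)
        gcongr with t ht
        rw [thr_of_le (by omega)]
        apply le_of_eq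
        congr 1
        omega

end Pool.Agent.Results.MP_90dd8d_pr.FirstOrder
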