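import Pool.Agent.Lib.MP_90dd8d_pr.FourFast2

/-!
# MP_90dd8d_pr: four cells, searcher of speed at least three
-/

set_option autoImplicit false

open MeasureTheory

namespace Pool.Agent.Results.MP_90dd8d_pr.FourCellsFast

open Pool.Agent.MP_90dd8d_pr

/-- For `n = 4`, every `w ≥ 3` and every `0 < lam < 1`, the value is
`lam (1 + lam) ^ 2 (2 + lam) / (7 + 4 lam + lam ^ 2)`, with explicit optimal strategies of both
players. -/
theorem result (w : ℕ) (hw : 3 ≤ w) (lam : ℝ) (h0 : 0 < lam) (h1 : lam < 1) :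
    IsSolution 4 w lam (lam * (1 + lam) ^ 2 * (2 + lam) / (7 + 4 * lam + lam ^ 2))
      (mix (infWeights4 lam) infPaths4) (mix (searchWeights4 lam) (searchPaths4 w hw)) :=
  isSolution_four_fast h0 h1 hw

end Pool.Agent.Results.MP_90dd8d_pr.FourCellsFast
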