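import Pool.Agent.Lib.MP_90dd8d_pr.Five

/-!
# MP_90dd8d_pr: four and five cells, searcher of speed one, large `lam`
-/

set_option autoImplicit false

open MeasureTheory

namespace Pool.Agent.Results.MP_90dd8d_pr.FourFiveSpeedOne

open Pool.Agent.MP_90dd8d_pr

/-- For `w = 1` and `n = 4` or `n = 5`, for all `lam < 1` above an explicit algebraic threshold
(about `0.697` for `n = 4` and `0.834` for `n = 5`), the value is the smaller root `v` of
`lam v ^ 2 - (1 + lam - (1 - lam) lam ^ (n - 1)) v + lam = 0`; the infiltrator's dash after a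
geometric delay of ratio `(1 - v) / (1 - lam v)` and the searcher's sweep after a geometric delay
of ratio `(lam - v) / (lam (1 - v))` are optimal. -/
theorem result (lam : ℝ) (h0 : 0 < lam) (h1 : lam < 1) :
    (1 ≤ lam ^ 2 + 2 * lam ^ 3 - lam ^ 5 →
      IsSolution 4 1 lam (rootVal 4 lam) (geomDash 4 (infRatio 4 lam))
        (geomSweep 4 1 (by norm_num) le_rfl (searchRatio 4 lam))) ∧
    (1 + lam + lam ^ 7 + lam ^ 8 ≤ lam ^ 3 + 2 * lam ^ 4 + 2 * lam ^ 5 →
      IsSolution 5 1 lam (rootVal 5 lam) (geomDash 5 (infRatio 5 lam))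
        (geomSweep 5 1 (by norm_num) le_rfl (searchRatio 5 lam))) :=
  ⟨fun h => isSolution_four_one h0 h1 h, fun h => isSolution_five_one h0 h1 h⟩

end Pool.Agent.Results.MP_90dd8d_pr.FourFiveSpeedOne
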