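import Pool.Agent.Lib.MP_90dd8d_pr.Three

/-!
# MP_90dd8d_pr: complete solution of the game on three cells

For `n = 3`, every searcher speed `w ≥ 1` and every `0 < lam < 1`, the value of the game and
optimal strategies of both players.
-/

set_option autoImplicit false

open MeasureTheory

namespace Pool.Agent.Results.MP_90dd8d_pr.ThreeCells

open Pool.Agent.MP_90dd8d_pr

/-- On three cells, for `w = 1` the value is the smaller root `v` of
`lam v ^ 2 - (1 + lam - lam ^ 2 + lam ^ 3) v + lam = 0`, the infiltrator dashes after a geometric
delay of ratio `(1 - v) / (1 - lam v)` and the searcher sweeps after a geometric delay of ratio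
`(lam - v) / (lam (1 - v))`. For `w ≥ 2` the value is `lam (1 + lam) / 2`, the infiltrator dashes
with delay `0` or `1` and the searcher searches cell `1` or `2` once and then stays in cell `3`,
each with probability `1 / 2`. -/
theorem result (w : ℕ) (hw : 1 ≤ w) (lam : ℝ) (h0 : 0 < lam) (h1 : lam < 1) :
    (w = 1 → IsSolution 3 w lam (rootVal 3 lam) (geomDash 3 (infRatio 3 lam))
      (geomSweep 3 w (by norm_num) hw (searchRatio 3 lam))) ∧
    (∀ hw2 : 2 ≤ w, IsSolution 3 w lam (lam * (1 + lam) / 2) twoDash (twoAmbush w hw2)) := by
  refine ⟨?_, fun hw2 => isSolution_three_fast h0 h1 hw2⟩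
  intro h
  subst h
  exact isSolution_three_one h0 h1

end Pool.Agent.Results.MP_90dd8d_pr.ThreeCells
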